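import Pool.Agent.BoxDim.Symbolic

/-!
# The Cantor set on the line
-/

open Set Filter Topology

namespace Pool.Agent.BoxDim

/-- marker bit of a letter -/
def mk (i : Fin 4) : Bool := decide (2 ≤ i.val)

/-- marker word of an infinite word -/
def mu (p : ℕ → Fin 4) : ℕ → Bool := fun k => mk (p k)

/-- size of the cylinder of the first `n` letters of `p` -/
noncomputable def a (n : ℕ) (p : ℕ → Fin 4) : ℝ := (1 / 100 : ℝ) ^ (β n (mu p))

/-- coding map -/
noncomputable def X (p : ℕ → Fin 4) : ℝ := ∑' n, ((p n).val : ℝ) * a n p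

theorem a_pos (n : ℕ) (p : ℕ → Fin 4) : 0 < a n p := by unfold a; positivity

theorem a_congr {n : ℕ} {p q : ℕ → Fin 4} (h : ∀ j < n, p j = q j) : a n p = a n q := by
  unfold a
  rw [β_congr (μ := mu p) (ν := mu q) (fun j hj => by simp only [mu, h j hj])]

theorem a_succ_le (n : ℕ) (p : ℕ → Fin 4) : a (n + 1) p ≤ 1 / 100 * a n p := by
  unfold a
  calc (1 / 100 : ℝ) ^ (β (n + 1) (mu p)) ≤ (1 / 100 : ℝ) ^ (β n (mu p) + 1) :=
        pow_le_pow_of_le_one (by norm_num) (by norm_num) (β_succ n (mu p))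
    _ = 1 / 100 * (1 / 100 : ℝ) ^ (β n (mu p)) := by rw [pow_succ]; ring

theorem a_add_le (n k : ℕ) (p : ℕ → Fin 4) : a (n + k) p ≤ (1 / 100 : ℝ) ^ k * a n p := by
  induction k with
  | zero => simp
  | succ k ih =>
    rw [← add_assoc]
    calc a (n + k + 1) p ≤ 1 / 100 * a (n + k) p := a_succ_le _ _
      _ ≤ 1 / 100 * ((1 / 100 : ℝ) ^ k * a n p) := by gcongr
      _ = (1 / 100 : ℝ) ^ (k + 1) * a n p := by rw [pow_succ]; ring

theorem a_zero (p : ℕ → Fin 4) : a 0 p = 1 := by simp [a, β]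

theorem a_le_pow (n : ℕ) (p : ℕ → Fin 4) : a n p ≤ (1 / 100 : ℝ) ^ n := by
  have := a_add_le 0 n p
  rwa [zero_add, a_zero, mul_one] at this

theorem a_antitone (p : ℕ → Fin 4) : Antitone (fun n => a n p) := by
  apply antitone_nat_of_succ_le
  intro n
  have h1 := a_succ_le n p
  have h2 := a_pos n p
  linarith

theorem digit_nonneg (i : Fin 4) : (0 : ℝ) ≤ (i.val : ℝ) := Nat.cast_nonneg _

theorem digit_le (i : Fin 4) : ((i.val : ℕ) : ℝ) ≤ 3 := by
  have : i.val ≤ 3 := by omega
  exact_mod_cast this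

theorem term_nonneg (n : ℕ) (p : ℕ → Fin 4) : 0 ≤ ((p n).val : ℝ) * a n p :=
  mul_nonneg (digit_nonneg _) (a_pos _ _).le

theorem term_le (n : ℕ) (p : ℕ → Fin 4) : ((p n).val : ℝ) * a n p ≤ 3 * (1 / 100 : ℝ) ^ n :=
  mul_le_mul (digit_le _) (a_le_pow _ _) (a_pos _ _).le (by norm_num)

theorem summable_geo : Summable (fun n : ℕ => 3 * (1 / 100 : ℝ) ^ n) :=
  (summable_geometric_of_lt_one (by norm_num) (by norm_num)).mul_left 3

theorem summable_term (p : ℕ → Fin 4) : Summable (fun n => ((p n).val : ℝ) * a n p) :=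
  Summable.of_nonneg_of_le (fun n => term_nonneg n p) (fun n => term_le n p) summable_geo

/-- tail of the series -/
noncomputable def tail (n : ℕ) (p : ℕ → Fin 4) : ℝ :=
  ∑' k, ((p (k + n)).val : ℝ) * a (k + n) p

theorem X_eq (n : ℕ) (p : ℕ → Fin 4) :
    X p = ∑ k ∈ Finset.range n, ((p k).val : ℝ) * a k p + tail n p :=
  ((summable_term p).sum_add_tsum_nat_add n).symm

theorem tail_nonneg (n : ℕ) (p : ℕ → Fin 4) : 0 ≤ tail n p :=
  tsum_nonneg (fun k => term_nonneg (k + n) p)

theorem tail_le (n : ℕ) (p : ℕ → Fin 4) : tail (n + 1) p ≤ a n p / 33 := by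
  have h1 : ∀ k, ((p (k + (n + 1))).val : ℝ) * a (k + (n + 1)) p
      ≤ (3 / 100 * a n p) * (1 / 100 : ℝ) ^ k := by
    intro k
    have h2 := a_add_le n (k + 1) p
    rw [show n + (k + 1) = k + (n + 1) by ring] at h2
    calc ((p (k + (n + 1))).val : ℝ) * a (k + (n + 1)) p
        ≤ 3 * ((1 / 100 : ℝ) ^ (k + 1) * a n p) :=
          mul_le_mul (digit_le _) h2 (a_pos _ _).le (by norm_num)
      _ = (3 / 100 * a n p) * (1 / 100 : ℝ) ^ k := by rw [pow_succ]; ring
  have hs : Summable (fun k : ℕ => (3 / 100 * a n p) * (1 / 100 : ℝ) ^ k) :=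
    (summable_geometric_of_lt_one (by norm_num) (by norm_num)).mul_left _
  have h3 : tail (n + 1) p ≤ ∑' k : ℕ, (3 / 100 * a n p) * (1 / 100 : ℝ) ^ k := by
    apply Summable.tsum_le_tsum h1 _ hs
    exact Summable.of_nonneg_of_le (fun k => term_nonneg _ p) h1 hs
  rw [tsum_mul_left, tsum_geometric_of_lt_one (by norm_num) (by norm_num)] at h3
  refine h3.trans (le_of_eq ?_)
  norm_num
  ring

theorem X_sub {n : ℕ} {p q : ℕ → Fin 4} (h : ∀ j < n, p j = q j) :
    X p - X q = (((p n).val : ℝ) - ((q n).val : ℝ)) * a n p + (tail (n + 1) p - tail (n + 1) q) := by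
  rw [X_eq (n + 1) p, X_eq (n + 1) q, Finset.sum_range_succ, Finset.sum_range_succ]
  have h1 : ∑ k ∈ Finset.range n, ((p k).val : ℝ) * a k p
      = ∑ k ∈ Finset.range n, ((q k).val : ℝ) * a k q := by
    apply Finset.sum_congr rfl
    intro k hk
    rw [Finset.mem_range] at hk
    rw [h k hk, a_congr (fun j hj => h j (hj.trans hk))]
  rw [h1, a_congr h]
  ring

theorem abs_tail_sub {n : ℕ} {p q : ℕ → Fin 4} (h : ∀ j < n, p j = q j) :
    |tail (n + 1) p - tail (n + 1) q| ≤ a n p / 33 := by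
  have h1 := tail_le n p
  have h2 := tail_le n q
  rw [← a_congr h] at h2
  have h3 := tail_nonneg (n + 1) p
  have h4 := tail_nonneg (n + 1) q
  rw [abs_le]
  constructor <;> linarith

theorem X_upper {n : ℕ} {p q : ℕ → Fin 4} (h : ∀ j < n, p j = q j) :
    |X p - X q| ≤ 4 * a n p := by
  rw [X_sub h]
  have h1 := abs_tail_sub h
  have h2 : |((p n).val : ℝ) - ((q n).val : ℝ)| ≤ 3 := by
    have := digit_nonneg (p n)
    have := digit_nonneg (q n)
    have := digit_le (p n)
    have := digit_le (q n)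
    rw [abs_le]; constructor <;> linarith
  have h3 := a_pos n p
  calc |(((p n).val : ℝ) - ((q n).val : ℝ)) * a n p + (tail (n + 1) p - tail (n + 1) q)|
      ≤ |(((p n).val : ℝ) - ((q n).val : ℝ)) * a n p| + |tail (n + 1) p - tail (n + 1) q| :=
        abs_add_le _ _
    _ ≤ 3 * a n p + a n p / 33 := by
        rw [abs_mul, abs_of_pos h3]
        gcongr
    _ ≤ 4 * a n p := by linarith

theorem X_lower {n : ℕ} {p q : ℕ → Fin 4} (h : ∀ j < n, p j = q j) (hn : p n ≠ q n) :
    a n p / 2 ≤ |X p - X q| := by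
  rw [X_sub h]
  have h1 := abs_tail_sub h
  have h2 : 1 ≤ |((p n).val : ℝ) - ((q n).val : ℝ)| := by
    have h3 : (p n).val ≠ (q n).val := fun h => hn (Fin.ext h)
    rcases Nat.lt_or_gt_of_ne h3 with h4 | h4
    · have : ((p n).val : ℝ) + 1 ≤ ((q n).val : ℝ) := by exact_mod_cast h4
      rw [abs_sub_comm]
      exact le_trans (by linarith) (le_abs_self _)
    · have : ((q n).val : ℝ) + 1 ≤ ((p n).val : ℝ) := by exact_mod_cast h4
      exact le_trans (by linarith) (le_abs_self _)
  have h3 := a_pos n p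
  have h4 : |(((p n).val : ℝ) - ((q n).val : ℝ)) * a n p| - |tail (n + 1) p - tail (n + 1) q|
      ≤ |(((p n).val : ℝ) - ((q n).val : ℝ)) * a n p + (tail (n + 1) p - tail (n + 1) q)| := by
    have := abs_sub_abs_le_abs_sub ((((p n).val : ℝ) - ((q n).val : ℝ)) * a n p)
      (-(tail (n + 1) p - tail (n + 1) q))
    rwa [abs_neg, sub_neg_eq_add] at this
  rw [abs_mul, abs_of_pos h3] at h4
  nlinarith

/-- first index at which two different words differ -/
theorem exists_first_diff {p q : ℕ → Fin 4} (h : p ≠ q) :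
    ∃ n, (∀ j < n, p j = q j) ∧ p n ≠ q n := by
  have h1 : ∃ n, p n ≠ q n := by
    by_contra hcon
    push Not at hcon
    exact h (funext hcon)
  classical
  refine ⟨Nat.find h1, fun j hj => ?_, Nat.find_spec h1⟩
  have := Nat.find_min h1 hj
  push Not at this
  exact this

theorem X_injective : Function.Injective X := by
  intro p q hpq
  by_contra h
  obtain ⟨n, h1, h2⟩ := exists_first_diff h
  have h3 := X_lower h1 h2
  rw [hpq, sub_self, abs_zero] at h3
  have := a_pos n p
  linarith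

theorem X_continuous : Continuous X := by
  unfold X
  apply continuous_tsum (u := fun n : ℕ => 3 * (1 / 100 : ℝ) ^ n) _ summable_geo
  · intro n p
    rw [Real.norm_of_nonneg (term_nonneg n p)]
    exact term_le n p
  · intro n
    -- the term depends on finitely many coordinates
    let res : (ℕ → Fin 4) → (Fin (n + 1) → Fin 4) := fun p i => p i
    let ext : (Fin (n + 1) → Fin 4) → (ℕ → Fin 4) := fun w k =>
      if h : k < n + 1 then w ⟨k, h⟩ else 0
    have hres : Continuous res := by fun_prop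
    have hg : Continuous (fun w : Fin (n + 1) → Fin 4 => (((ext w) n).val : ℝ) * a n (ext w)) :=
      continuous_of_discreteTopology
    have heq : (fun p : ℕ → Fin 4 => ((p n).val : ℝ) * a n p)
        = (fun w : Fin (n + 1) → Fin 4 => (((ext w) n).val : ℝ) * a n (ext w)) ∘ res := by
      funext p
      have h1 : ∀ j < n + 1, p j = ext (res p) j := by
        intro j hj
        simp only [ext, res, hj, dif_pos]
      simp only [Function.comp_apply]
      rw [← h1 n (by omega), a_congr (fun j hj => h1 j (by omega))]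
    rw [heq]
    exact hg.comp hres

/-- adding a letter in front -/
def cons (i : Fin 4) (p : ℕ → Fin 4) : ℕ → Fin 4
  | 0 => i
  | k + 1 => p k

theorem shift_mu_cons (i : Fin 4) (p : ℕ → Fin 4) : shift (mu (cons i p)) = mu p := rfl

theorem a_cons_le (n : ℕ) (i : Fin 4) (p : ℕ → Fin 4) :
    a (n + 1) (cons i p) ≤ (1 / 100 : ℝ) ^ (Φ (n + 1) (mu (cons i p))) * a n p := by
  unfold a
  rw [← pow_add]
  apply pow_le_pow_of_le_one (by norm_num) (by norm_num)
  have := β_shift n (mu (cons i p))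
  rw [shift_mu_cons] at this
  omega

/-- the central estimate -/
theorem X_cons_le {n : ℕ} {p q : ℕ → Fin 4} (i : Fin 4) (h : ∀ j < n, p j = q j)
    (hn : p n ≠ q n) :
    |X (cons i p) - X (cons i q)| ≤
      8 * (1 / 100 : ℝ) ^ (Φ (n + 1) (mu (cons i p))) * |X p - X q| := by
  have h1 : ∀ j < n + 1, cons i p j = cons i q j := by
    intro j hj
    cases j with
    | zero => rfl
    | succ j => exact h j (by omega)
  have h2 := X_upper h1
  have h3 := a_cons_le n i p
  have h4 := X_lower h hn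
  have h5 : 0 < (1 / 100 : ℝ) ^ (Φ (n + 1) (mu (cons i p))) := by positivity
  calc |X (cons i p) - X (cons i q)| ≤ 4 * a (n + 1) (cons i p) := h2
    _ ≤ 4 * ((1 / 100 : ℝ) ^ (Φ (n + 1) (mu (cons i p))) * a n p) := by gcongr
    _ = 8 * (1 / 100 : ℝ) ^ (Φ (n + 1) (mu (cons i p))) * (a n p / 2) := by ring
    _ ≤ _ := by gcongr

theorem X_cons_lip {p q : ℕ → Fin 4} (i : Fin 4) :
    |X (cons i p) - X (cons i q)| ≤ 8 / 100 * |X p - X q| := by
  by_cases hpq : p = q
  · subst hpq; simp
  · obtain ⟨n, h, hn⟩ := exists_first_diff hpq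
    refine (X_cons_le i h hn).trans ?_
    have h1 : (1 / 100 : ℝ) ^ (Φ (n + 1) (mu (cons i p))) ≤ (1 / 100 : ℝ) ^ 1 :=
      pow_le_pow_of_le_one (by norm_num) (by norm_num) (one_le_Φ (by omega) _)
    rw [pow_one] at h1
    have h2 := abs_nonneg (X p - X q)
    nlinarith

theorem X_cons_der (p : ℕ → Fin 4) (i : Fin 4) {ε : ℝ} (hε : 0 < ε) :
    ∃ δ > 0, ∀ q, |X q - X p| < δ → |X (cons i q) - X (cons i p)| ≤ ε * |X q - X p| := by
  obtain ⟨N, hN⟩ := Φ_eq_of_large (mu (cons i p))
  obtain ⟨M, hM⟩ := exists_pow_lt_of_lt_one (show 0 < ε / 8 by positivity)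
    (show (1 / 100 : ℝ) < 1 by norm_num)
  refine ⟨a (N + M) p / 2, by have := a_pos (N + M) p; positivity, fun q hq => ?_⟩
  by_cases hpq : p = q
  · subst hpq; simp
  · obtain ⟨n, h, hn⟩ := exists_first_diff hpq
    have h1 := X_lower h hn
    rw [abs_sub_comm] at hq
    have h2 : a n p < a (N + M) p := by linarith
    have h3 : N + M < n := by
      by_contra hcon
      push Not at hcon
      have := a_antitone p hcon
      simp only at this
      linarith
    have h4 := X_cons_le i h hn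
    rw [abs_sub_comm (X q), abs_sub_comm (X (cons i q))]
    refine h4.trans ?_
    rw [hN (n + 1) (by omega)]
    have h5 : (1 / 100 : ℝ) ^ (n + 1) ≤ (1 / 100 : ℝ) ^ M :=
      pow_le_pow_of_le_one (by norm_num) (by norm_num) (by omega)
    have h6 := abs_nonneg (X p - X q)
    have h7 : 8 * (1 / 100 : ℝ) ^ (n + 1) ≤ ε := by linarith
    gcongr

end Pool.Agent.BoxDim
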