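import Pool.Agent.BoxDim.Cantor

/-!
# Counting
-/

open Set Filter Topology

namespace Pool.Agent.BoxDim

/-- covering number by closed balls -/
noncomputable def N {E : Type*} [PseudoMetricSpace E] (K : Set E) (δ : ℝ) : ℕ :=
  sInf {m : ℕ | ∃ s : Finset E, s.card = m ∧ K ⊆ ⋃ x ∈ s, Metric.closedBall x δ}

theorem N_le {E : Type*} [PseudoMetricSpace E] {K : Set E} {δ : ℝ} (s : Finset E)
    (h : K ⊆ ⋃ x ∈ s, Metric.closedBall x δ) : N K δ ≤ s.card :=
  Nat.sInf_le ⟨s, rfl, h⟩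

theorem le_N {E : Type*} [PseudoMetricSpace E] {K : Set E} (hK : IsCompact K) {δ : ℝ}
    (hδ : 0 < δ) {ι : Type*} [Fintype ι] (pts : ι → E) (hpts : ∀ i, pts i ∈ K)
    (hsep : ∀ i j, i ≠ j → 2 * δ < dist (pts i) (pts j)) : Fintype.card ι ≤ N K δ := by
  classical
  have hne : {m : ℕ | ∃ s : Finset E, s.card = m ∧ K ⊆ ⋃ x ∈ s, Metric.closedBall x δ}.Nonempty := by
    obtain ⟨t, -, htf, ht⟩ := hK.finite_cover_balls hδ
    refine ⟨htf.toFinset.card, htf.toFinset, rfl, fun y hy => ?_⟩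
    obtain ⟨x, hx, hyx⟩ := mem_iUnion₂.mp (ht hy)
    exact mem_iUnion₂.mpr ⟨x, by simpa using hx, Metric.ball_subset_closedBall hyx⟩
  obtain ⟨s, hs, hcov⟩ := Nat.sInf_mem hne
  change Fintype.card ι ≤ sInf _
  rw [← hs]
  have h1 : ∀ i, ∃ x ∈ s, dist (pts i) x ≤ δ := by
    intro i
    obtain ⟨x, hx, hyx⟩ := mem_iUnion₂.mp (hcov (hpts i))
    exact ⟨x, hx, hyx⟩
  choose c hc hd using h1
  have hinj : Function.Injective c := by
    intro i j hij
    by_contra hne
    have h2 := hsep i j hne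
    have h3 : dist (pts i) (pts j) ≤ dist (pts i) (c i) + dist (c i) (pts j) :=
      dist_triangle _ _ _
    have h4 := hd i
    have h5 := hd j
    rw [← hij, dist_comm] at h5
    linarith
  calc Fintype.card ι = (Finset.univ : Finset ι).card := rfl
    _ = (Finset.univ.image c).card := (Finset.card_image_of_injective _ hinj).symm
    _ ≤ s.card := Finset.card_le_card (by
      intro x hx
      obtain ⟨i, -, rfl⟩ := Finset.mem_image.mp hx
      exact hc i)

/-- word with marker word `per q 0` and given free bits -/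
def wd (q n : ℕ) (b : Fin n → Bool) : ℕ → Fin 4 := fun k =>
  if h : k < n then
    (if q ∣ 0 + k then (if b ⟨k, h⟩ then 3 else 2) else (if b ⟨k, h⟩ then 1 else 0))
  else 0

theorem mu_wd {q n : ℕ} (b : Fin n → Bool) {j : ℕ} (hj : j < n) :
    mu (wd q n b) j = per q 0 j := by
  unfold mu wd per mk
  rw [dif_pos hj]
  split_ifs <;> simp_all

theorem wd_inj {q n : ℕ} {b c : Fin n → Bool} {j : ℕ} (hj : j < n)
    (h : wd q n b j = wd q n c j) : b ⟨j, hj⟩ = c ⟨j, hj⟩ := by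
  unfold wd at h
  rw [dif_pos hj, dif_pos hj] at h
  revert h
  by_cases hq : q ∣ 0 + j
  · rw [if_pos hq, if_pos hq]
    cases b ⟨j, hj⟩ <;> cases c ⟨j, hj⟩ <;> simp
  · rw [if_neg hq, if_neg hq]
    cases b ⟨j, hj⟩ <;> cases c ⟨j, hj⟩ <;> simp

theorem wd_sep {q n : ℕ} {b c : Fin n → Bool} (hbc : b ≠ c) :
    (1 / 100 : ℝ) ^ (β n (per q 0)) / 2 ≤ |X (wd q n b) - X (wd q n c)| := by
  have hne : wd q n b ≠ wd q n c := by
    intro h
    apply hbc
    funext j
    exact wd_inj j.2 (congrFun h j)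
  obtain ⟨m, h1, h2⟩ := exists_first_diff hne
  have hm : m < n := by
    by_contra hcon
    push Not at hcon
    apply h2
    unfold wd
    rw [dif_neg (by omega), dif_neg (by omega)]
  refine le_trans ?_ (X_lower h1 h2)
  have h3 : a m (wd q n b) = (1 / 100 : ℝ) ^ (β m (per q 0)) := by
    unfold a
    rw [β_congr (μ := mu (wd q n b)) (ν := per q 0) (fun j hj => mu_wd b (by omega))]
  rw [h3]
  have h4 : (1 / 100 : ℝ) ^ (β n (per q 0)) ≤ (1 / 100 : ℝ) ^ (β m (per q 0)) :=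
    pow_le_pow_of_le_one (by norm_num) (by norm_num) (β_mono _ hm.le)
  linarith

/-- word from a finite word, padded with zeros -/
def pad (n : ℕ) (w : Fin n → Fin 4) : ℕ → Fin 4 := fun k => if h : k < n then w ⟨k, h⟩ else 0

theorem pad_cover (n : ℕ) (p : ℕ → Fin 4) : ∃ w : Fin n → Fin 4,
    |X p - X (pad n w)| ≤ 4 * a n p := by
  refine ⟨fun i => p i, X_upper (fun j hj => ?_)⟩
  unfold pad
  rw [dif_pos hj]

end Pool.Agent.BoxDim
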