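import Mathlib

/-!
# Extending a Lipschitz map with zero pointwise derivative from a closed subset of the line
-/

open Set Filter Topology

namespace Pool.Agent.BoxDim

/-- smooth step -/
def st (t : ℝ) : ℝ := 3 * t ^ 2 - 2 * t ^ 3

theorem st_zero : st 0 = 0 := by simp [st]
theorem st_one : st 1 = 1 := by norm_num [st]
theorem st_symm (t : ℝ) : st (1 - t) = 1 - st t := by unfold st; ring

theorem st_nonneg {t : ℝ} (h1 : t ≤ 1) : 0 ≤ st t := by
  unfold st
  have : 0 ≤ t ^ 2 * (3 - 2 * t) := by
    apply mul_nonneg (sq_nonneg _); linarith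
  nlinarith

theorem st_le_sq {t : ℝ} (h0 : 0 ≤ t) : st t ≤ 3 * t ^ 2 := by
  unfold st
  have : 0 ≤ t ^ 3 := by positivity
  linarith

theorem hasDerivAt_st (t : ℝ) : HasDerivAt st (6 * t * (1 - t)) t := by
  have h1 : HasDerivAt (fun t : ℝ => 3 * t ^ 2) (3 * ((2 : ℕ) * t ^ (2 - 1))) t :=
    (hasDerivAt_pow 2 t).const_mul 3
  have h2 : HasDerivAt (fun t : ℝ => 2 * t ^ 3) (2 * ((3 : ℕ) * t ^ (3 - 1))) t :=
    (hasDerivAt_pow 3 t).const_mul 2
  have h3 : HasDerivAt st (3 * ((2 : ℕ) * t ^ (2 - 1)) - 2 * ((3 : ℕ) * t ^ (3 - 1))) t :=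
    h1.sub h2
  refine h3.congr_deriv ?_
  norm_num
  ring

/-- The abstract inequality at a point of the closed set: `u` is the end point of the gap which is
nearer to `x`, `w` is the other one. -/
theorem gap_bound {gx gu gw α β γ c δ ε t : ℝ} (hc : 0 ≤ c) (hε : 0 < ε) (hδ : 0 < δ)
    (hα : 0 ≤ α) (hβ : 0 < β) (hβγ : β ≤ γ) (ht : t = β / γ)
    (h1 : α < δ → |gu - gx| ≤ ε * α)
    (h2 : α + γ < δ → |gw - gx| ≤ ε * (α + γ))
    (h3 : |gw - gu| ≤ c * γ)
    (hs1 : α + β ≤ δ / 2) (hs2 : (6 * c + 1) * (α + β) ≤ ε * δ) :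
    |gu + (gw - gu) * st t - gx| ≤ 3 * ε * (α + β) := by
  have hγ : 0 < γ := lt_of_lt_of_le hβ hβγ
  have ht0 : 0 ≤ t := by rw [ht]; positivity
  have ht1 : t ≤ 1 := by rw [ht]; exact (div_le_one hγ).mpr hβγ
  have hst0 := st_nonneg ht1
  have hst := st_le_sq ht0
  have htγ : t * γ = β := by rw [ht]; field_simp
  have h1' : |gu - gx| ≤ ε * α := h1 (by linarith)
  have key : |gu + (gw - gu) * st t - gx| ≤ |gu - gx| + |gw - gu| * st t := by
    calc |gu + (gw - gu) * st t - gx| = |(gu - gx) + (gw - gu) * st t| := by congr 1; ring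
      _ ≤ |gu - gx| + |(gw - gu) * st t| := abs_add_le _ _
      _ = |gu - gx| + |gw - gu| * st t := by rw [abs_mul, abs_of_nonneg hst0]
  refine key.trans ?_
  rcases lt_or_ge (α + γ) δ with h | h
  · -- both end points are near
    have h2' := h2 h
    have h4 : |gw - gu| ≤ 2 * ε * α + ε * γ := by
      calc |gw - gu| = |(gw - gx) - (gu - gx)| := by congr 1; ring
        _ ≤ |gw - gx| + |gu - gx| := abs_sub _ _
        _ ≤ _ := by nlinarith
    have hst1 : st t ≤ 1 := by
      have := st_nonneg (t := 1 - t) (by linarith)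
      rw [st_symm] at this
      linarith
    have hst3 : st t ≤ 3 * t := by nlinarith
    calc |gu - gx| + |gw - gu| * st t
        ≤ ε * α + (2 * ε * α + ε * γ) * st t := by gcongr
      _ = ε * α + 2 * ε * α * st t + ε * γ * st t := by ring
      _ ≤ ε * α + 2 * ε * α * 1 + ε * γ * (3 * t) := by gcongr
      _ = 3 * ε * (α + t * γ) := by ring
      _ = 3 * ε * (α + β) := by rw [htγ]
  · -- the far end point is far
    have hγδ : δ / 2 ≤ γ := by linarith
    have h5 : |gw - gu| * st t ≤ ε * β := by
      calc |gw - gu| * st t ≤ (c * γ) * (3 * t ^ 2) := by gcongr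
        _ = 3 * c * t * (t * γ) := by ring
        _ = 3 * c * t * β := by rw [htγ]
        _ ≤ ε * β := by
          apply mul_le_mul_of_nonneg_right _ hβ.le
          -- 3 c t ≤ ε, t ≤ 2 β / δ
          have h6 : t * δ ≤ 2 * β := by
            have : t * (δ / 2) ≤ t * γ := by gcongr
            nlinarith
          have h7 : 3 * c * t * δ ≤ ε * δ := by
            calc 3 * c * t * δ = 3 * c * (t * δ) := by ring
              _ ≤ 3 * c * (2 * β) := by gcongr
              _ ≤ (6 * c + 1) * (α + β) := by nlinarith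
              _ ≤ ε * δ := hs2
          exact le_of_mul_le_mul_right h7 hδ
    have : 0 ≤ ε * (α + β) := by positivity
    nlinarith

/-- Main extension lemma, for closed sets which are unbounded in both directions. -/
theorem exists_extension_aux (C : Set ℝ) (hC : IsClosed C) (hbelow : ∀ x : ℝ, ∃ y ∈ C, y ≤ x)
    (habove : ∀ x : ℝ, ∃ y ∈ C, x ≤ y) (G : ℝ → ℝ) (c : ℝ) (hc : 0 ≤ c)
    (hlip : ∀ y ∈ C, ∀ z ∈ C, |G y - G z| ≤ c * |y - z|)
    (hder : ∀ y ∈ C, ∀ ε > 0, ∃ δ > 0, ∀ z ∈ C, |z - y| < δ → |G z - G y| ≤ ε * |z - y|) :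
    ∃ F : ℝ → ℝ, (∀ y ∈ C, F y = G y) ∧ ∀ x, ∃ d : ℝ, HasDerivAt F d x ∧ |d| ≤ 3 / 2 * c := by
  set l : ℝ → ℝ := fun x => sSup (C ∩ Iic x) with hl
  set r : ℝ → ℝ := fun x => sInf (C ∩ Ici x) with hr
  have hlne : ∀ x, (C ∩ Iic x).Nonempty := fun x => by
    obtain ⟨y, hy, hyx⟩ := hbelow x; exact ⟨y, hy, hyx⟩
  have hrne : ∀ x, (C ∩ Ici x).Nonempty := fun x => by
    obtain ⟨y, hy, hyx⟩ := habove x; exact ⟨y, hy, hyx⟩
  have hlbdd : ∀ x, BddAbove (C ∩ Iic x) := fun x => ⟨x, fun y hy => hy.2⟩
  have hrbdd : ∀ x, BddBelow (C ∩ Ici x) := fun x => ⟨x, fun y hy => hy.2⟩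
  have hlmem : ∀ x, l x ∈ C ∩ Iic x := fun x =>
    (hC.inter isClosed_Iic).csSup_mem (hlne x) (hlbdd x)
  have hrmem : ∀ x, r x ∈ C ∩ Ici x := fun x =>
    (hC.inter isClosed_Ici).csInf_mem (hrne x) (hrbdd x)
  have hlmax : ∀ x y, y ∈ C → y ≤ x → y ≤ l x := fun x y hy hyx =>
    le_csSup (hlbdd x) ⟨hy, hyx⟩
  have hrmin : ∀ x y, y ∈ C → x ≤ y → r x ≤ y := fun x y hy hyx =>
    csInf_le (hrbdd x) ⟨hy, hyx⟩
  have hlC : ∀ x ∈ C, l x = x := fun x hx =>
    le_antisymm (hlmem x).2 (hlmax x x hx le_rfl)
  have hrC : ∀ x ∈ C, r x = x := fun x hx =>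
    le_antisymm (hrmin x x hx le_rfl) (hrmem x).2
  have hllt : ∀ x, x ∉ C → l x < x := fun x hx =>
    lt_of_le_of_ne (hlmem x).2 (fun h => hx (h ▸ (hlmem x).1))
  have hrlt : ∀ x, x ∉ C → x < r x := fun x hx =>
    lt_of_le_of_ne (hrmem x).2 (fun h => hx (h ▸ (hrmem x).1))
  set F : ℝ → ℝ := fun x => G (l x) + (G (r x) - G (l x)) * st ((x - l x) / (r x - l x)) with hF
  have hFC : ∀ y ∈ C, F y = G y := by
    intro y hy
    simp only [hF, hlC y hy, hrC y hy, sub_self, zero_mul, add_zero]
  refine ⟨F, hFC, fun x => ?_⟩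
  by_cases hx : x ∈ C
  · -- derivative zero
    refine ⟨0, ?_, by rw [abs_zero]; positivity⟩
    rw [hasDerivAt_iff_isLittleO, Asymptotics.isLittleO_iff]
    intro ε hε
    obtain ⟨δ, hδ, hG⟩ := hder x hx (ε / 3) (by positivity)
    have hpos : 0 < min (δ / 2) (ε / 3 * δ / (6 * c + 1)) := by positivity
    filter_upwards [Metric.ball_mem_nhds x hpos] with y hy
    rw [Metric.mem_ball, Real.dist_eq] at hy
    have hy1 : |y - x| < δ / 2 := lt_of_lt_of_le hy (min_le_left _ _)
    have hy2 : (6 * c + 1) * |y - x| ≤ ε / 3 * δ := by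
      have := (lt_of_lt_of_le hy (min_le_right _ _)).le
      rw [le_div_iff₀ (by positivity)] at this
      linarith
    simp only [smul_zero, sub_zero, Real.norm_eq_abs]
    rw [hFC x hx]
    by_cases hyC : y ∈ C
    · rw [hFC y hyC]
      refine (hG y hyC (by linarith)).trans ?_
      have := abs_nonneg (y - x)
      nlinarith
    · set a := l y with ha
      set b := r y with hb
      have haC := (hlmem y).1
      have hbC := (hrmem y).1
      have hay := hllt y hyC
      have hyb := hrlt y hyC
      rw [← ha] at haC hay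
      rw [← hb] at hbC hyb
      have hab : 0 < b - a := by linarith
      rcases lt_or_ge x y with hxy | hxy
      · -- `x ≤ a`
        have hxa : x ≤ a := hlmax y x hx hxy.le
        have e1 : F y = G a + (G b - G a) * st ((y - a) / (b - a)) := rfl
        rw [e1]
        have habs : |y - x| = (a - x) + (y - a) := by
          rw [abs_of_pos (by linarith)]; ring
        have := gap_bound (gx := G x) (gu := G a) (gw := G b) (α := a - x) (β := y - a)
          (γ := b - a) (c := c) (δ := δ) (ε := ε / 3) (t := (y - a) / (b - a)) hc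
          (by positivity) hδ (by linarith) (by linarith) (by linarith) rfl
          (fun h => by
            have := hG a haC (by rw [abs_of_nonneg (by linarith)]; exact h)
            rwa [abs_of_nonneg (a := a - x) (by linarith)] at this)
          (fun h => by
            have := hG b hbC (by rw [abs_of_nonneg (by linarith)]; linarith)
            rw [abs_of_nonneg (a := b - x) (by linarith)] at this
            convert this using 2
            ring)
          (by
            have := hlip b hbC a haC
            rwa [abs_of_pos (a := b - a) hab] at this)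
          (by rw [← habs]; exact hy1.le) (by rw [← habs]; exact hy2)
        rw [← habs] at this
        convert this using 2
        ring
      · -- `b ≤ x`
        have hyx : y < x := lt_of_le_of_ne hxy (fun h => hyC (h ▸ hx))
        have hbx : b ≤ x := hrmin y x hx hyx.le
        have e1 : F y = G b + (G a - G b) * st ((b - y) / (b - a)) := by
          have e2 : F y = G a + (G b - G a) * st ((y - a) / (b - a)) := rfl
          have e3 : (b - y) / (b - a) = 1 - (y - a) / (b - a) := by
            field_simp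
            ring
          rw [e2, e3, st_symm]
          ring
        rw [e1]
        have habs : |y - x| = (x - b) + (b - y) := by
          rw [abs_of_neg (by linarith)]; ring
        have := gap_bound (gx := G x) (gu := G b) (gw := G a) (α := x - b) (β := b - y)
          (γ := b - a) (c := c) (δ := δ) (ε := ε / 3) (t := (b - y) / (b - a)) hc
          (by positivity) hδ (by linarith) (by linarith) (by linarith) rfl
          (fun h => by
            have := hG b hbC (by rw [abs_sub_comm, abs_of_nonneg (by linarith)]; exact h)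
            rwa [abs_sub_comm b x, abs_of_nonneg (a := x - b) (by linarith)] at this)
          (fun h => by
            have := hG a haC (by rw [abs_sub_comm, abs_of_nonneg (by linarith)]; linarith)
            rw [abs_sub_comm a x, abs_of_nonneg (a := x - a) (by linarith)] at this
            convert this using 2
            ring)
          (by
            have := hlip a haC b hbC
            rwa [abs_sub_comm a b, abs_of_pos (a := b - a) hab] at this)
          (by rw [← habs]; exact hy1.le) (by rw [← habs]; exact hy2)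
        rw [← habs] at this
        convert this using 2
        ring
  · -- inside a gap
    set a := l x with ha
    set b := r x with hb
    have haC := (hlmem x).1
    have hbC := (hrmem x).1
    have hax := hllt x hx
    have hxb := hrlt x hx
    rw [← ha] at haC hax
    rw [← hb] at hbC hxb
    have hab : 0 < b - a := by linarith
    have hlocal : F =ᶠ[𝓝 x] fun y => G a + (G b - G a) * st ((y - a) / (b - a)) := by
      filter_upwards [Ioo_mem_nhds hax hxb] with y hy
      have h1 : l y = a := by
        apply le_antisymm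
        · rcases le_or_gt (l y) x with h | h
          · exact hlmax x _ (hlmem y).1 h
          · have h2 : b ≤ l y := hrmin x _ (hlmem y).1 h.le
            have h3 : l y ≤ y := (hlmem y).2
            linarith [hy.2]
        · exact hlmax y a haC hy.1.le
      have h2 : r y = b := by
        apply le_antisymm
        · exact hrmin y b hbC hy.2.le
        · rcases le_or_gt x (r y) with h | h
          · exact hrmin x _ (hrmem y).1 h
          · have h2 : r y ≤ a := hlmax x _ (hrmem y).1 h.le
            have h3 : y ≤ r y := (hrmem y).2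
            linarith [hy.1]
      simp only [hF, h1, h2]
    set t := (x - a) / (b - a) with ht
    have hst : HasDerivAt (fun y => st ((y - a) / (b - a))) ((6 * t * (1 - t)) * (1 / (b - a))) x := by
      have h1 : HasDerivAt (fun y : ℝ => (y - a) / (b - a)) (1 / (b - a)) x :=
        ((hasDerivAt_id x).sub_const a).div_const (b - a)
      exact (hasDerivAt_st t).comp x h1
    refine ⟨(G b - G a) * ((6 * t * (1 - t)) * (1 / (b - a))), ?_, ?_⟩
    · apply HasDerivAt.congr_of_eventuallyEq _ hlocal
      exact (hst.const_mul (G b - G a)).const_add (G a)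
    · have ht0 : 0 ≤ t := by rw [ht]; apply div_nonneg <;> linarith
      have ht1 : t ≤ 1 := by rw [ht, div_le_one hab]; linarith
      have h1 := hlip b hbC a haC
      rw [abs_of_pos hab] at h1
      rw [abs_mul, abs_mul, abs_of_nonneg (a := 6 * t * (1 - t)) (by
        apply mul_nonneg <;> linarith), abs_of_nonneg (a := 1 / (b - a)) (by positivity)]
      have h2 : 6 * t * (1 - t) ≤ 3 / 2 := by nlinarith [sq_nonneg (2 * t - 1)]
      have h20 : 0 ≤ 6 * t * (1 - t) := by apply mul_nonneg <;> linarith
      calc |G b - G a| * (6 * t * (1 - t) * (1 / (b - a)))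
          ≤ (c * (b - a)) * (3 / 2 * (1 / (b - a))) := by gcongr
        _ = 3 / 2 * c := by field_simp

/-- Extension from a nonempty compact set. -/
theorem exists_extension (K : Set ℝ) (hK : IsCompact K) (hne : K.Nonempty) (G : ℝ → ℝ) (c : ℝ)
    (hc : 0 ≤ c) (hlip : ∀ y ∈ K, ∀ z ∈ K, |G y - G z| ≤ c * |y - z|)
    (hder : ∀ y ∈ K, ∀ ε > 0, ∃ δ > 0, ∀ z ∈ K, |z - y| < δ → |G z - G y| ≤ ε * |z - y|) :
    ∃ F : ℝ → ℝ, (∀ y ∈ K, F y = G y) ∧ ∀ x, ∃ d : ℝ, HasDerivAt F d x ∧ |d| ≤ 3 / 2 * c := by
  set A := sInf K with hA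
  set B := sSup K with hB
  have hAK : A ∈ K := hK.sInf_mem hne
  have hBK : B ∈ K := hK.sSup_mem hne
  have hAle : ∀ y ∈ K, A ≤ y := fun y hy => csInf_le hK.bddBelow hy
  have hleB : ∀ y ∈ K, y ≤ B := fun y hy => le_csSup hK.bddAbove hy
  have hAB : A ≤ B := hAle B hBK
  set C : Set ℝ := K ∪ Iic A ∪ Ici B with hC
  set cl : ℝ → ℝ := fun x => max A (min B x) with hcl
  have hclK : ∀ x ∈ K, cl x = x := by
    intro x hx
    simp only [hcl, min_eq_right (hleB x hx), max_eq_right (hAle x hx)]
  have hclC : ∀ x ∈ C, cl x ∈ K := by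
    rintro x ((hx | hx) | hx)
    · rw [hclK x hx]; exact hx
    · have : cl x = A := by
        simp only [hcl]
        rw [min_eq_right (le_trans hx hAB), max_eq_left hx]
      rw [this]; exact hAK
    · have : cl x = B := by
        simp only [hcl]
        rw [min_eq_left hx, max_eq_right hAB]
      rw [this]; exact hBK
  have hcl1 : ∀ x y, |cl x - cl y| ≤ |x - y| := by
    intro x y
    simp only [hcl]
    rw [max_comm A, max_comm A]
    refine (abs_max_sub_max_le_abs _ _ A).trans ?_
    rw [min_comm B, min_comm B]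
    exact (abs_min_sub_min_le_max x B y B).trans (by simp)
  obtain ⟨F, hF1, hF2⟩ := exists_extension_aux C
    ((hK.isClosed.union isClosed_Iic).union isClosed_Ici)
    (fun x => ⟨min x A, Or.inl (Or.inr (mem_Iic.mpr (min_le_right x A))), min_le_left _ _⟩)
    (fun x => ⟨max x B, Or.inr (le_max_right x B), le_max_left _ _⟩)
    (G ∘ cl) c hc
    (fun y hy z hz => (hlip _ (hclC y hy) _ (hclC z hz)).trans (by
      have := hcl1 y z
      gcongr))
    (fun y hy ε hε => by
      obtain ⟨δ, hδ, h⟩ := hder _ (hclC y hy) ε hε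
      refine ⟨δ, hδ, fun z hz hzy => ?_⟩
      have h1 := hcl1 z y
      refine (h _ (hclC z hz) (lt_of_le_of_lt h1 hzy)).trans ?_
      gcongr)
  refine ⟨F, fun y hy => ?_, hF2⟩
  rw [hF1 y (Or.inl (Or.inl hy)), Function.comp_apply, hclK y hy]

end Pool.Agent.BoxDim
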