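import Pool.Agent.BoxDim.Count
import Pool.Agent.BoxDim.Extension

/-!
# The iterated function system
-/

open Set Filter Topology

namespace Pool.Agent.BoxDim

/-- the attractor on the line -/
def K : Set ℝ := range X

theorem isCompact_K : IsCompact K := isCompact_range X_continuous

theorem K_nonempty : K.Nonempty := range_nonempty X

theorem exists_map (i : Fin 4) : ∃ F : ℝ → ℝ, (∀ p, F (X p) = X (cons i p)) ∧
    Differentiable ℝ F ∧ LipschitzWith (12 / 100) F := by
  have hG : ∀ p, X (cons i (Function.invFun X (X p))) = X (cons i p) := by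
    intro p
    rw [Function.leftInverse_invFun X_injective p]
  obtain ⟨F, hF1, hF2⟩ := exists_extension K isCompact_K K_nonempty
    (fun y => X (cons i (Function.invFun X y))) (8 / 100) (by norm_num)
    (by
      rintro _ ⟨p, rfl⟩ _ ⟨q, rfl⟩
      simp only [hG]
      exact X_cons_lip i)
    (by
      rintro _ ⟨p, rfl⟩ ε hε
      obtain ⟨δ, hδ, h⟩ := X_cons_der p i hε
      refine ⟨δ, hδ, ?_⟩
      rintro _ ⟨q, rfl⟩ hq
      simp only [hG]
      exact h q hq)
  refine ⟨F, fun p => ?_, ?_, ?_⟩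
  · rw [hF1 _ ⟨p, rfl⟩]
    exact hG p
  · intro x
    obtain ⟨d, hd, -⟩ := hF2 x
    exact hd.differentiableAt
  · have hdiff : Differentiable ℝ F := fun x => by
      obtain ⟨d, hd, -⟩ := hF2 x
      exact hd.differentiableAt
    apply lipschitzWith_of_nnnorm_deriv_le hdiff
    intro x
    obtain ⟨d, hd, hle⟩ := hF2 x
    rw [hd.deriv, ← NNReal.coe_le_coe, coe_nnnorm, Real.norm_eq_abs]
    refine hle.trans (le_of_eq ?_)
    push_cast
    norm_num

theorem K_eq (F : Fin 4 → ℝ → ℝ) (hF : ∀ i p, F i (X p) = X (cons i p)) :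
    K = ⋃ i, F i '' K := by
  ext y
  constructor
  · rintro ⟨p, rfl⟩
    refine mem_iUnion.mpr ⟨p 0, X (fun k => p (k + 1)), ⟨_, rfl⟩, ?_⟩
    rw [hF]
    congr 1
    funext k
    cases k <;> rfl
  · intro hy
    obtain ⟨i, _, ⟨p, rfl⟩, rfl⟩ := mem_iUnion.mp hy
    rw [hF]
    exact ⟨_, rfl⟩

section count

variable {E : Type*} [PseudoMetricSpace E] (f : ℝ → E) (hf : Isometry f)

include hf

theorem lower_count {q : ℕ} (hq : 1 ≤ q) :
    2 ^ (T q * T q) ≤ N (f '' K) ((1 / 100 : ℝ) ^ (2 * (T q * T q) + 1)) := by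
  have h := le_N (K := f '' K) (isCompact_K.image hf.continuous)
    (δ := (1 / 100 : ℝ) ^ (2 * (T q * T q) + 1)) (by positivity)
    (ι := Fin (T q * T q) → Bool) (fun b => f (X (wd q (T q * T q) b)))
    (fun b => ⟨_, ⟨_, rfl⟩, rfl⟩)
    (by
      intro b c hbc
      rw [hf.dist_eq, Real.dist_eq]
      have h1 := wd_sep (q := q) hbc
      have h2 : (1 / 100 : ℝ) ^ (2 * (T q * T q)) ≤ (1 / 100 : ℝ) ^ (β (T q * T q) (per q 0)) :=
        pow_le_pow_of_le_one (by norm_num) (by norm_num) (β_per' hq 0)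
      have h3 : 0 < (1 / 100 : ℝ) ^ (2 * (T q * T q)) := by positivity
      rw [pow_succ]
      linarith)
  simpa using h

theorem upper_count {q : ℕ} (hq : 1 ≤ q) :
    N (f '' K) ((1 / 100 : ℝ) ^ ((T q * T q) * (T q * T q) - 1)) ≤ 4 ^ (2 * (T q * T q)) := by
  classical
  set n := 2 * (T q * T q) with hn
  set m := (T q * T q) * (T q * T q) with hm
  have hm1 : 1 ≤ m := by
    have := T_pos q
    have : 0 < m := by positivity
    exact this
  refine (N_le (K := f '' K) (Finset.univ.image (fun w : Fin n → Fin 4 => f (X (pad n w)))) ?_).trans ?_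
  · rintro _ ⟨_, ⟨p, rfl⟩, rfl⟩
    obtain ⟨w, hw⟩ := pad_cover n p
    refine mem_iUnion₂.mpr ⟨f (X (pad n w)), by simp, ?_⟩
    rw [Metric.mem_closedBall, hf.dist_eq, Real.dist_eq]
    refine hw.trans ?_
    have h1 : a n p ≤ (1 / 100 : ℝ) ^ m := by
      unfold a
      exact pow_le_pow_of_le_one (by norm_num) (by norm_num) (β_lower' hq (mu p))
    have h2 : (1 / 100 : ℝ) ^ m = 1 / 100 * (1 / 100 : ℝ) ^ (m - 1) := by
      rw [← pow_succ', Nat.sub_add_cancel hm1]
    have h3 : 0 < (1 / 100 : ℝ) ^ (m - 1) := by positivity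
    rw [h2] at h1
    linarith
  · refine Finset.card_image_le.trans ?_
    simp

/-- The box dimension of the attractor does not exist. -/
theorem no_limit : ¬ ∃ L : ℝ, Tendsto
    (fun δ : ℝ => Real.log ((N (f '' K) δ : ℕ) : ℝ) / (-Real.log δ)) (𝓝[>] 0) (𝓝 L) := by
  rintro ⟨L, hL⟩
  have hlog100 : 0 < Real.log 100 := Real.log_pos (by norm_num)
  have hlog2 : 0 < Real.log 2 := Real.log_pos (by norm_num)
  have hnegl : ∀ k : ℕ, -Real.log ((1 / 100 : ℝ) ^ k) = k * Real.log 100 := by
    intro k
    rw [Real.log_pow, one_div, Real.log_inv]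
    ring
  have hpow0 : Tendsto (fun k : ℕ => (1 / 100 : ℝ) ^ k) atTop (𝓝[>] 0) := by
    rw [tendsto_nhdsWithin_iff]
    exact ⟨tendsto_pow_atTop_nhds_zero_of_lt_one (by norm_num) (by norm_num),
      Eventually.of_forall (fun k => by
        have : (0 : ℝ) < (1 / 100 : ℝ) ^ k := by positivity
        exact this)⟩
  have hT : Tendsto (fun q => T q) atTop atTop :=
    tendsto_atTop_mono le_T tendsto_id
  have hTT : Tendsto (fun q => T q * T q) atTop atTop :=
    tendsto_atTop_mono (fun q => Nat.le_mul_of_pos_left _ (T_pos q)) hT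
  -- first sequence of scales
  have hs1 : Tendsto (fun q => 2 * (T q * T q) + 1) atTop atTop :=
    tendsto_atTop_mono (fun q => by omega) hTT
  have hL1 := hL.comp (hpow0.comp hs1)
  have hge : Real.log 2 / (3 * Real.log 100) ≤ L := by
    apply ge_of_tendsto hL1
    filter_upwards [eventually_ge_atTop 1] with q hq
    simp only [Function.comp_apply]
    rw [hnegl]
    set n := T q * T q with hn
    have hn1 : 1 ≤ n := by
      have := T_pos q
      have : 0 < n := by positivity
      exact this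
    have hn1' : (1 : ℝ) ≤ n := by exact_mod_cast hn1
    have h1 := lower_count f hf hq
    rw [← hn] at h1
    have h2 : (n : ℝ) * Real.log 2 ≤ Real.log (N (f '' K) ((1 / 100 : ℝ) ^ (2 * n + 1)) : ℝ) := by
      rw [← Real.log_pow]
      apply Real.log_le_log (by positivity)
      exact_mod_cast h1
    push_cast
    rw [div_le_div_iff₀ (by positivity) (by positivity)]
    calc Real.log 2 * ((2 * (n : ℝ) + 1) * Real.log 100)
        ≤ Real.log 2 * ((3 * n) * Real.log 100) := by gcongr; linarith
      _ = (n * Real.log 2) * (3 * Real.log 100) := by ring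
      _ ≤ _ := by gcongr
  -- second sequence of scales
  have hs2 : Tendsto (fun q => (T q * T q) * (T q * T q) - 1) atTop atTop := by
    apply tendsto_atTop_mono _ (tendsto_sub_atTop_nat 1 |>.comp hTT)
    intro q
    simp only [Function.comp_apply]
    have : T q * T q ≤ (T q * T q) * (T q * T q) := Nat.le_mul_of_pos_left _ (by
      have := T_pos q
      positivity)
    omega
  have hL2 := hL.comp (hpow0.comp hs2)
  have hinv : Tendsto (fun q => 4 * ((T q * T q : ℕ) : ℝ)⁻¹) atTop (𝓝 (4 * 0)) :=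
    (tendsto_inv_atTop_zero.comp (tendsto_natCast_atTop_atTop.comp hTT)).const_mul 4
  rw [mul_zero] at hinv
  have hle : L ≤ 0 := by
    apply le_of_tendsto_of_tendsto hL2 hinv
    filter_upwards [eventually_ge_atTop 1] with q hq
    simp only [Function.comp_apply]
    rw [hnegl]
    have h1 := upper_count f hf hq
    set n := T q * T q with hn
    have hn8 : 2 ≤ n := by
      have := eight_le_T hq
      nlinarith
    have hn8' : (2 : ℝ) ≤ n := by exact_mod_cast hn8
    have hnn : 2 ≤ n * n := by nlinarith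
    have hcast : ((n * n - 1 : ℕ) : ℝ) = (n : ℝ) * n - 1 := by
      rw [Nat.cast_sub (by omega)]
      push_cast
      ring
    have hpos : (0 : ℝ) < (n : ℝ) * n - 1 := by nlinarith
    have h2 : Real.log (N (f '' K) ((1 / 100 : ℝ) ^ (n * n - 1)) : ℝ)
        ≤ (2 * n) * Real.log 100 := by
      rcases Nat.eq_zero_or_pos (N (f '' K) ((1 / 100 : ℝ) ^ (n * n - 1))) with h | h
      · rw [h, Nat.cast_zero, Real.log_zero]
        positivity
      · have h3 : Real.log (N (f '' K) ((1 / 100 : ℝ) ^ (n * n - 1)) : ℝ)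
            ≤ Real.log ((4 : ℝ) ^ (2 * n)) := by
          apply Real.log_le_log (by exact_mod_cast h)
          exact_mod_cast h1
        rw [Real.log_pow] at h3
        refine h3.trans ?_
        push_cast
        have : Real.log 4 ≤ Real.log 100 := Real.log_le_log (by norm_num) (by norm_num)
        gcongr
    rw [hcast, div_le_iff₀ (by positivity)]
    refine h2.trans ?_
    have h4 : 2 * (n : ℝ) ≤ 4 * (n : ℝ)⁻¹ * (n * n - 1) := by
      have h5 : 4 * (n : ℝ)⁻¹ * (n * n - 1) = 4 * n - 4 * (n : ℝ)⁻¹ := by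
        field_simp
      rw [h5]
      have h6 : (n : ℝ)⁻¹ ≤ 1 / 2 := by
        rw [inv_le_comm₀ (by linarith) (by norm_num)]
        norm_num
        exact hn8
      linarith
    calc 2 * (n : ℝ) * Real.log 100 ≤ (4 * (n : ℝ)⁻¹ * (n * n - 1)) * Real.log 100 := by gcongr
      _ = _ := by ring
  have : 0 < Real.log 2 / (3 * Real.log 100) := by positivity
  linarith

end count

end Pool.Agent.BoxDim
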