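import Mathlib

/-!
# Symbolic part of the construction

`β n μ` is the exponent attached to the first `n` letters of the marker word `μ`.
-/

namespace Pool.Agent.BoxDim

open Filter

/-- rapidly growing scales -/
def T (q : ℕ) : ℕ := 2 ^ (3 ^ q)

theorem T_succ (q : ℕ) : T (q + 1) = T q * T q * T q := by
  unfold T
  rw [pow_succ, pow_mul]
  ring

theorem T_pos (q : ℕ) : 0 < T q := by unfold T; positivity

theorem T_mono : Monotone T := by
  intro a b h
  unfold T
  exact Nat.pow_le_pow_right (by norm_num) (Nat.pow_le_pow_right (by norm_num) h)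

theorem eight_le_T {q : ℕ} (hq : 1 ≤ q) : 8 ≤ T q := by
  have := T_mono hq
  simpa [T] using this

theorem two_mul_le_T (q : ℕ) : 2 * q ≤ T q := by
  unfold T
  have h1 : q < 2 ^ q := Nat.lt_two_pow_self
  have h2 : q + 1 ≤ 3 ^ q := Nat.lt_pow_self (by norm_num)
  have h3 : 2 ^ (q + 1) ≤ 2 ^ (3 ^ q) := Nat.pow_le_pow_right (by norm_num) h2
  rw [pow_succ] at h3
  omega

theorem le_T (q : ℕ) : q ≤ T q := by
  have := two_mul_le_T q
  omega

/-- the periodic marker word of period `q`, shifted by `s` -/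
def per (q s : ℕ) : ℕ → Bool := fun j => decide (q ∣ s + j)

/-- the initial word of length `n` of `μ` is exceptional -/
def Bad (n : ℕ) (μ : ℕ → Bool) : Prop :=
  ∃ q, 1 ≤ q ∧ T q ≤ n ∧ n ≤ T q * T q ∧ ∃ s, ∀ j < n, μ j = per q s j

open Classical in
/-- the gain of the initial word of length `n` -/
noncomputable def Φ (n : ℕ) (μ : ℕ → Bool) : ℕ := if Bad n μ then 1 else n

/-- removing the first letter -/
def shift (μ : ℕ → Bool) : ℕ → Bool := fun k => μ (k + 1)

/-- the exponent of the initial word of length `n` -/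
noncomputable def β : ℕ → (ℕ → Bool) → ℕ
  | 0, _ => 0
  | n + 1, μ => max (β n (shift μ) + Φ (n + 1) μ) (β n μ + 1)

theorem Bad_congr {n : ℕ} {μ ν : ℕ → Bool} (h : ∀ j < n, μ j = ν j) : Bad n μ ↔ Bad n ν := by
  unfold Bad
  constructor
  · rintro ⟨q, h1, h2, h3, s, hs⟩
    exact ⟨q, h1, h2, h3, s, fun j hj => by rw [← h j hj, hs j hj]⟩
  · rintro ⟨q, h1, h2, h3, s, hs⟩
    exact ⟨q, h1, h2, h3, s, fun j hj => by rw [h j hj, hs j hj]⟩

theorem Φ_congr {n : ℕ} {μ ν : ℕ → Bool} (h : ∀ j < n, μ j = ν j) : Φ n μ = Φ n ν := by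
  unfold Φ
  by_cases hb : Bad n μ
  · rw [if_pos hb, if_pos ((Bad_congr h).mp hb)]
  · rw [if_neg hb, if_neg (fun hc => hb ((Bad_congr h).mpr hc))]

theorem β_congr {n : ℕ} : ∀ {μ ν : ℕ → Bool}, (∀ j < n, μ j = ν j) → β n μ = β n ν := by
  induction n with
  | zero => intro μ ν _; rfl
  | succ n ih =>
    intro μ ν h
    simp only [β]
    rw [Φ_congr h, ih (fun j hj => h j (by omega)),
      ih (μ := shift μ) (ν := shift ν) (fun j hj => h (j + 1) (by omega))]

theorem one_le_Φ {n : ℕ} (hn : 1 ≤ n) (μ : ℕ → Bool) : 1 ≤ Φ n μ := by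
  unfold Φ
  split_ifs <;> omega

theorem Φ_le {n : ℕ} (hn : 1 ≤ n) (μ : ℕ → Bool) : Φ n μ ≤ n := by
  unfold Φ
  split_ifs <;> omega

theorem β_succ (n : ℕ) (μ : ℕ → Bool) : β n μ + 1 ≤ β (n + 1) μ := by
  simp only [β]
  exact le_max_right _ _

theorem β_mono (μ : ℕ → Bool) : Monotone (fun n => β n μ) :=
  monotone_nat_of_le_succ (fun n => (Nat.le_succ _).trans (β_succ n μ))

theorem le_β (n : ℕ) (μ : ℕ → Bool) : n ≤ β n μ := by
  induction n with
  | zero => exact Nat.zero_le _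
  | succ n ih => exact (Nat.succ_le_succ ih).trans (β_succ n μ)

theorem β_shift (n : ℕ) (μ : ℕ → Bool) : β n (shift μ) + Φ (n + 1) μ ≤ β (n + 1) μ := by
  simp only [β]
  exact le_max_left _ _

theorem β_le_sq (n : ℕ) : ∀ μ : ℕ → Bool, β n μ ≤ n * n := by
  induction n with
  | zero => intro μ; simp [β]
  | succ n ih =>
    intro μ
    simp only [β]
    have h1 := ih μ
    have h2 := ih (shift μ)
    have h3 := Φ_le (n := n + 1) (by omega) μ
    apply max_le <;> nlinarith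

/-- If two initial words of `μ` are exceptional, they have the same period. -/
theorem bad_period {n₁ n₂ : ℕ} {μ : ℕ → Bool} {q₁ q₂ s₁ s₂ : ℕ} (hq₁ : 1 ≤ q₁)
    (h₁ : 2 * q₁ ≤ n₁) (h₂ : 2 * q₂ ≤ n₂)
    (hs₁ : ∀ j < n₁, μ j = per q₁ s₁ j) (hs₂ : ∀ j < n₂, μ j = per q₂ s₂ j) (hlt : q₁ < q₂) :
    False := by
  -- first occurrence
  obtain ⟨a, ha, hdiv⟩ : ∃ a < q₁, q₁ ∣ s₁ + a := by
    refine ⟨(q₁ - s₁ % q₁) % q₁, Nat.mod_lt _ hq₁, ?_⟩
    have h1 : s₁ % q₁ < q₁ := Nat.mod_lt _ hq₁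
    rw [Nat.dvd_iff_mod_eq_zero, Nat.add_mod, Nat.mod_mod]
    rw [← Nat.add_mod, ]
    rcases Nat.eq_zero_or_pos (s₁ % q₁) with h | h
    · rw [Nat.add_mod, h]; simp
    · rw [Nat.add_mod, Nat.mod_eq_of_lt (a := q₁ - s₁ % q₁) (by omega)]
      have : s₁ % q₁ + (q₁ - s₁ % q₁) = q₁ := by omega
      rw [this, Nat.mod_self]
  have e1 : μ a = true := by
    rw [hs₁ a (by omega)]
    simpa [per] using hdiv
  have e2 : μ (a + q₁) = true := by
    rw [hs₁ (a + q₁) (by omega)]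
    simp only [per, decide_eq_true_eq]
    rw [← add_assoc]
    exact (Nat.dvd_add_right hdiv).mpr dvd_rfl
  have e3 : q₂ ∣ s₂ + a := by
    rw [hs₂ a (by omega)] at e1
    simpa [per] using e1
  have e4 : q₂ ∣ s₂ + (a + q₁) := by
    rw [hs₂ (a + q₁) (by omega)] at e2
    simpa [per] using e2
  rw [← add_assoc, Nat.dvd_add_right e3] at e4
  have := Nat.le_of_dvd (by omega) e4
  omega

theorem not_bad_of_large (μ : ℕ → Bool) : ∃ N, ∀ n, N ≤ n → ¬ Bad n μ := by
  by_cases h : ∃ n, Bad n μ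
  · obtain ⟨n₁, q₁, hq₁, hT₁, -, s₁, hs₁⟩ := h
    refine ⟨T q₁ * T q₁ + 1, fun n hn hbad => ?_⟩
    obtain ⟨q₂, hq₂, hT₂, hle₂, s₂, hs₂⟩ := hbad
    have h1 := two_mul_le_T q₁
    have h2 := two_mul_le_T q₂
    rcases lt_trichotomy q₁ q₂ with hlt | heq | hlt
    · exact bad_period hq₁ (by omega) (by omega) hs₁ hs₂ hlt
    · subst heq
      omega
    · exact bad_period hq₂ (by omega) (by omega) hs₂ hs₁ hlt
  · exact ⟨0, fun n _ hb => h ⟨n, hb⟩⟩

theorem Φ_eq_of_large (μ : ℕ → Bool) : ∃ N, ∀ n, N ≤ n → Φ n μ = n := by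
  obtain ⟨N, hN⟩ := not_bad_of_large μ
  refine ⟨N, fun n hn => ?_⟩
  unfold Φ
  rw [if_neg (hN n hn)]

/-- No initial word of length in `(T q ^ 2, 2 T q ^ 2]` is exceptional. -/
theorem not_bad_between {q : ℕ} (hq : 1 ≤ q) {l : ℕ} (h1 : T q * T q < l)
    (h2 : l ≤ 2 * (T q * T q)) (μ : ℕ → Bool) : ¬ Bad l μ := by
  rintro ⟨p, hp, hTp, hle, -⟩
  rcases Nat.lt_or_ge q p with h | h
  · have h3 : T (q + 1) ≤ T p := T_mono h
    rw [T_succ] at h3
    have h4 := eight_le_T hq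
    have h5 : 0 < T q * T q := Nat.mul_pos (T_pos q) (T_pos q)
    nlinarith
  · have h3 : T p ≤ T q := T_mono h
    have h4 : T p * T p ≤ T q * T q := Nat.mul_le_mul h3 h3
    omega

theorem β_lower {q : ℕ} (hq : 1 ≤ q) (k : ℕ) (hk : k ≤ T q * T q) :
    ∀ μ : ℕ → Bool, (T q * T q) * k ≤ β (T q * T q + k) μ := by
  induction k with
  | zero => intro μ; simp
  | succ k ih =>
    intro μ
    have h1 := ih (by omega) (shift μ)
    have h2 := β_shift (T q * T q + k) μ
    have h3 : Φ (T q * T q + k + 1) μ = T q * T q + k + 1 := by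
      unfold Φ
      rw [if_neg (not_bad_between hq (by omega) (by omega) μ)]
    rw [← add_assoc]
    calc T q * T q * (k + 1) = T q * T q * k + T q * T q := by ring
      _ ≤ β (T q * T q + k) (shift μ) + Φ (T q * T q + k + 1) μ := by omega
      _ ≤ _ := h2

/-- At scale `2 T q ^ 2` all exponents are at least `T q ^ 4`. -/
theorem β_lower' {q : ℕ} (hq : 1 ≤ q) (μ : ℕ → Bool) :
    (T q * T q) * (T q * T q) ≤ β (2 * (T q * T q)) μ := by
  have := β_lower hq (T q * T q) le_rfl μ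
  rwa [← two_mul] at this

theorem shift_per (q s : ℕ) : shift (per q s) = per q (s + 1) := by
  funext j
  simp only [shift, per]
  congr 2
  ring

theorem bad_per {q : ℕ} (hq : 1 ≤ q) (s : ℕ) {n : ℕ} (h1 : T q ≤ n) (h2 : n ≤ T q * T q) :
    Bad n (per q s) := ⟨q, hq, h1, h2, s, fun _ _ => rfl⟩

/-- Upper bound for the exponents along the periodic marker words. -/
theorem β_per {q : ℕ} (hq : 1 ≤ q) (n : ℕ) (h1 : T q ≤ n) (h2 : n ≤ T q * T q) :
    ∀ s, β n (per q s) ≤ T q * T q + (n - T q) := by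
  induction n, h1 using Nat.le_induction with
  | base => intro s; simpa using β_le_sq (T q) (per q s)
  | succ n hn ih =>
    intro s
    have h3 := ih (by omega)
    have h4 := h3 s
    have h5 := h3 (s + 1)
    have h6 : Φ (n + 1) (per q s) = 1 := by
      unfold Φ
      rw [if_pos (bad_per hq s (by omega) h2)]
    simp only [β]
    rw [h6, shift_per]
    apply max_le <;> omega

theorem β_per' {q : ℕ} (hq : 1 ≤ q) (s : ℕ) :
    β (T q * T q) (per q s) ≤ 2 * (T q * T q) := by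
  have h8 := eight_le_T hq
  have h1 : T q ≤ T q * T q := Nat.le_mul_of_pos_left _ (T_pos q)
  have := β_per hq (T q * T q) h1 le_rfl s
  omega

end Pool.Agent.BoxDim
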